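import Pool.Agent.MWLE.StmtsA

/-! MWLE row INS (helper4). -/

set_option autoImplicit false

namespace Pool.Agent.MWLE.H4

open Pool.Agent.Helper14_MV Pool.Agent.Helper2_MV
open Pool.Agent.MWGN (Gz)

/-- `0` becomes `X`, `1` becomes `T` -/
def sb2 (X T : List ℕ) (a : ℕ) : List ℕ := if a = 0 then X else if a = 1 then T else []

/-- `A c u c B ~ A c u c c B` -/
theorem dblc {β : FIC} (h : Gz β) (c : ℕ) (u A B : List ℕ) :
    RR β (A ++ c :: (u ++ c :: B)) (A ++ c :: (u ++ c :: c :: B)) := by
  have h1 := h.gw.gm.sub (sb2 [c] u)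
  have e1 : ([0, 1, 0] : List ℕ).flatMap (sb2 [c] u) = c :: (u ++ [c]) := by simp [sb2]
  have e2 : ([0, 1, 0, 0] : List ℕ).flatMap (sb2 [c] u) = c :: (u ++ [c, c]) := by simp [sb2]
  rw [e1, e2] at h1
  have h2 := ((RR.refl A).append h1).append (RR.refl (β := β) B)
  simpa using h2

/-- an occurrence of `c` behind `A1 ∋ c` may be doubled -/
theorem dblm {β : FIC} (h : Gz β) (c : ℕ) (A1 B : List ℕ) (hc : c ∈ A1) :
    RR β (A1 ++ c :: B) (A1 ++ c :: c :: B) := by
  obtain ⟨s, t, rfl⟩ := List.append_of_mem hc
  have h1 := dblc h c t s B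
  simpa using h1

theorem ins : InsStmt := by
  intro β h hF v
  induction v with
  | nil =>
    intro A B _
    exact RR.refl _
  | cons c v' ih =>
    intro A B hv
    obtain ⟨A1, A2, B1, B2, hA, hc, hB, h2⟩ := hv c (by simp)
    have s1 : RR β (A1 ++ c :: (A2 ++ (B1 ++ c :: B2)))
        (A1 ++ c :: c :: (A2 ++ (B1 ++ c :: B2))) := dblm h c A1 _ hc
    have s2 : RR β (A1 ++ c :: c :: (A2 ++ (B1 ++ c :: B2)))
        (A1 ++ c :: c :: (A2 ++ c :: (B1 ++ c :: B2))) := by
      apply hF
      intro e he
      have h3 := h2 e he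
      rw [hA, hB] at h3
      refine le_trans h3 ?_
      simp only [List.count_append, List.count_cons]
      omega
    have s3 : RR β (A1 ++ c :: (A2 ++ c :: (B1 ++ c :: B2)))
        (A1 ++ c :: c :: (A2 ++ c :: (B1 ++ c :: B2))) := dblm h c A1 _ hc
    have s4 : RR β (A ++ B) (A ++ [c] ++ B) := by
      have s5 := β.trans (β.trans s1 s2) (RR.symm s3)
      rw [hA, hB]
      have e1 : A1 ++ c :: (A2 ++ (B1 ++ c :: B2)) = (A1 ++ c :: A2) ++ (B1 ++ c :: B2) := by simp
      have e2 : A1 ++ c :: (A2 ++ c :: (B1 ++ c :: B2)) =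
          (A1 ++ c :: A2) ++ [c] ++ (B1 ++ c :: B2) := by simp
      rw [e1, e2] at s5
      exact s5
    have s6 := ih (A ++ [c]) B (by
      intro c' hc'
      obtain ⟨A1', A2', B1', B2', hA', hcA', hB', h2'⟩ := hv c' (List.mem_cons_of_mem _ hc')
      refine ⟨A1', A2' ++ [c], B1', B2', by rw [hA']; simp, hcA', hB', ?_⟩
      intro e he
      have hcount : (A ++ [c] ++ B).count e = (A ++ B).count e + [c].count e := by
        simp only [List.count_append]
        omega
      rw [hcount]
      by_cases hec : e = c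
      · subst hec
        have h4 : 2 ≤ (A ++ B).count e := by
          rw [hA, hB]
          simp only [List.count_append, List.count_cons]
          simp
          omega
        omega
      · have h5 : e ∈ A2' ++ B1' := by
          rw [List.append_assoc, List.mem_append, List.mem_append] at he
          rcases he with he | he | he
          · exact List.mem_append.2 (Or.inl he)
          · exact absurd (List.mem_singleton.1 he) hec
          · exact List.mem_append.2 (Or.inr he)
        have h6 := h2' e h5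
        omega)
    have s7 := β.trans s4 s6
    have e3 : A ++ (c :: v' ++ B) = A ++ [c] ++ (v' ++ B) := by simp
    show RR β (A ++ B) (A ++ (c :: v' ++ B))
    rw [e3]
    exact s7

end Pool.Agent.MWLE.H4
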